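import Pool.Agent.W662.KKS.Stmts

/-!
# KKS-LF: existence of the group
-/

set_option autoImplicit false
set_option linter.unusedSectionVars false

open scoped InnerProductSpace
open Pool.Agent.W662.KKS Pool.Agent.Helper278

namespace Pool.Agent.W591.KKS

variable {H : Type} [NormedAddCommGroup H] [InnerProductSpace ℂ H] [CompleteSpace H]

lemma vn_smul {M : VonNeumannAlgebra H} {x : H →L[ℂ] H} (hx : x ∈ M) (c : ℂ) : c • x ∈ M :=
  M.toStarSubalgebra.smul_mem hx c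

lemma inner_star_mul (ξ : H) (x : H →L[ℂ] H) :
    ⟪ξ, (star x * x) ξ⟫_ℂ = ((‖x ξ‖ : ℝ) : ℂ) ^ 2 := by
  rw [mul_apply_eq_comp, ContinuousLinearMap.star_eq_adjoint,
    ContinuousLinearMap.adjoint_inner_right, inner_self_eq_norm_sq_to_K]
  rfl

/-- trace property -/
def TrP (M : VonNeumannAlgebra H) (ξ : H) : Prop :=
  ∀ x ∈ M, ∀ y ∈ M, ⟪ξ, (x * y) ξ⟫_ℂ = ⟪ξ, (y * x) ξ⟫_ℂ

lemma norm_eq_of_inner {ξ : H} {x y : H →L[ℂ] H}
    (h : ⟪ξ, (star x * x) ξ⟫_ℂ = ⟪ξ, (star y * y) ξ⟫_ℂ) : ‖x ξ‖ = ‖y ξ‖ := by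
  rw [inner_star_mul, inner_star_mul] at h
  have h1 : ‖x ξ‖ ^ 2 = ‖y ξ‖ ^ 2 := by exact_mod_cast h
  exact (sq_eq_sq₀ (norm_nonneg _) (norm_nonneg _)).1 h1

/-- the average over `F` -/
noncomputable def EF (F : Finset (H →L[ℂ] H)) (x : H →L[ℂ] H) : H →L[ℂ] H :=
  (F.card : ℂ)⁻¹ • ∑ u ∈ F, star u * x * u

/-- finite group of unitaries -/
structure Gp (F : Finset (H →L[ℂ] H)) : Prop where
  one : (1 : H →L[ℂ] H) ∈ F
  mul : ∀ u ∈ F, ∀ v ∈ F, u * v ∈ F
  stm : ∀ u ∈ F, star u ∈ F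
  su : ∀ u ∈ F, star u * u = 1
  us : ∀ u ∈ F, u * star u = 1

namespace Gp

variable {F : Finset (H →L[ℂ] H)} (h : Gp F)

include h

lemma card_ne : (F.card : ℂ) ≠ 0 := by
  have : F.card ≠ 0 := Finset.card_ne_zero.2 ⟨1, h.one⟩
  exact_mod_cast this

lemma sum_left {v : H →L[ℂ] H} (hv : v ∈ F) (f : (H →L[ℂ] H) → (H →L[ℂ] H)) :
    ∑ u ∈ F, f (v * u) = ∑ u ∈ F, f u := by
  refine Finset.sum_bij' (fun u _ => v * u) (fun u _ => star v * u) (fun u hu => h.mul v hv u hu)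
    (fun u hu => h.mul _ (h.stm v hv) u hu) (fun u _ => ?_) (fun u _ => ?_) (fun u _ => rfl)
  · rw [← mul_assoc, h.su v hv, one_mul]
  · rw [← mul_assoc, h.us v hv, one_mul]

lemma sum_right {v : H →L[ℂ] H} (hv : v ∈ F) (f : (H →L[ℂ] H) → (H →L[ℂ] H)) :
    ∑ u ∈ F, f (u * v) = ∑ u ∈ F, f u := by
  refine Finset.sum_bij' (fun u _ => u * v) (fun u _ => u * star v) (fun u hu => h.mul u hu v hv)
    (fun u hu => h.mul u hu _ (h.stm v hv)) (fun u _ => ?_) (fun u _ => ?_) (fun u _ => rfl)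
  · rw [mul_assoc, h.us v hv, mul_one]
  · rw [mul_assoc, h.su v hv, mul_one]

/-- conjugating the argument does not change the average -/
lemma EF_conj {v : H →L[ℂ] H} (hv : v ∈ F) (x : H →L[ℂ] H) : EF F (star v * x * v) = EF F x := by
  unfold EF
  congr 1
  rw [← h.sum_left hv (fun u => star u * x * u)]
  refine Finset.sum_congr rfl fun u _ => ?_
  rw [star_mul]
  simp only [mul_assoc]

/-- the average commutes with the group -/
lemma EF_comm {v : H →L[ℂ] H} (hv : v ∈ F) (x : H →L[ℂ] H) : EF F x * v = v * EF F x := by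
  have h1 : star v * EF F x * v = EF F x := by
    unfold EF
    rw [mul_smul_comm, smul_mul_assoc]
    congr 1
    rw [Finset.mul_sum, Finset.sum_mul, ← h.sum_right hv (fun u => star u * x * u)]
    refine Finset.sum_congr rfl fun u _ => ?_
    rw [star_mul]
    simp only [mul_assoc]
  calc EF F x * v = (v * star v) * EF F x * v := by rw [h.us v hv, one_mul]
    _ = v * (star v * EF F x * v) := by simp only [mul_assoc]
    _ = v * EF F x := by rw [h1]

lemma EF_one : EF F (1 : H →L[ℂ] H) = 1 := by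
  unfold EF
  have h1 : ∑ u ∈ F, star u * 1 * u = ∑ _u ∈ F, (1 : H →L[ℂ] H) :=
    Finset.sum_congr rfl fun u hu => by rw [mul_one, h.su u hu]
  rw [h1, Finset.sum_const, ← Nat.cast_smul_eq_nsmul ℂ, smul_smul, inv_mul_cancel₀ h.card_ne,
    one_smul]

end Gp

lemma EF_add (F : Finset (H →L[ℂ] H)) (x y : H →L[ℂ] H) : EF F (x + y) = EF F x + EF F y := by
  unfold EF
  rw [← smul_add, ← Finset.sum_add_distrib]
  congr 1
  exact Finset.sum_congr rfl fun u _ => by rw [mul_add, add_mul]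

lemma EF_smul (F : Finset (H →L[ℂ] H)) (c : ℂ) (x : H →L[ℂ] H) : EF F (c • x) = c • EF F x := by
  unfold EF
  rw [smul_comm c, Finset.smul_sum (r := c)]
  congr 1
  exact Finset.sum_congr rfl fun u _ => by rw [mul_smul_comm, smul_mul_assoc]

/-- the average as a linear map -/
noncomputable def EFl (F : Finset (H →L[ℂ] H)) : (H →L[ℂ] H) →ₗ[ℂ] (H →L[ℂ] H) where
  toFun := EF F
  map_add' := EF_add F
  map_smul' := EF_smul F

lemma EF_sum (F s : Finset (H →L[ℂ] H)) (f : (H →L[ℂ] H) → (H →L[ℂ] H)) :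
    EF F (∑ v ∈ s, f v) = ∑ v ∈ s, EF F (f v) := map_sum (EFl F) f s

lemma EF_sub (F : Finset (H →L[ℂ] H)) (x y : H →L[ℂ] H) : EF F (x - y) = EF F x - EF F y := by
  have : x - y = x + (-1 : ℂ) • y := by rw [neg_one_smul, sub_eq_add_neg]
  rw [this, EF_add, EF_smul, neg_one_smul, sub_eq_add_neg]

lemma EF_star (F : Finset (H →L[ℂ] H)) {x : H →L[ℂ] H} (hx : star x = x) :
    star (EF F x) = EF F x := by
  unfold EF
  rw [star_smul, star_sum, star_inv₀, star_natCast]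
  congr 1
  refine Finset.sum_congr rfl fun u _ => ?_
  rw [star_mul, star_mul, star_star, hx, mul_assoc]

lemma EF_mem {M : VonNeumannAlgebra H} {F : Finset (H →L[ℂ] H)} (hF : ∀ u ∈ F, u ∈ M)
    {x : H →L[ℂ] H} (hx : x ∈ M) : EF F x ∈ M :=
  vn_smul (sum_mem fun u hu => mul_mem (mul_mem (star_mem (hF u hu)) hx) (hF u hu)) _

/-- the average over a group of the average over a subgroup -/
lemma EF_EF {F F' : Finset (H →L[ℂ] H)} (h : Gp F) (h' : Gp F') (hs : F ⊆ F') (x : H →L[ℂ] H) :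
    EF F' (EF F x) = EF F' x := by
  have h1 : EF F' (EF F x) = (F.card : ℂ)⁻¹ • ∑ v ∈ F, EF F' (star v * x * v) := by
    conv_lhs => rw [EF.eq_def F x]
    rw [EF_smul, EF_sum]
  rw [h1, Finset.sum_congr rfl fun v hv => h'.EF_conj (hs hv) x, Finset.sum_const,
    ← Nat.cast_smul_eq_nsmul ℂ, smul_smul, inv_mul_cancel₀ h.card_ne, one_smul]

/-! ### norms -/

section norms

variable {M : VonNeumannAlgebra H} {ξ : H} {F : Finset (H →L[ℂ] H)}

lemma norm_conj (hT : TrP M ξ) {u x : H →L[ℂ] H} (hu : u ∈ M) (hx : x ∈ M)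
    (us : u * star u = 1) : ‖(star u * x * u) ξ‖ = ‖x ξ‖ := by
  have hxu : x * u ∈ M := mul_mem hx hu
  have h1 : ‖(star u * x * u) ξ‖ = ‖(x * u) ξ‖ := by
    refine norm_eq_of_inner ?_
    have : star (star u * x * u) * (star u * x * u) = star (x * u) * (x * u) := by
      rw [star_mul, star_mul, star_star, star_mul]
      calc star u * (star x * u) * (star u * x * u) = star u * star x * (u * star u) * x * u := by
            simp only [mul_assoc]
        _ = star u * star x * (x * u) := by rw [us, mul_one]; simp only [mul_assoc]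
    rw [this]
  rw [h1]
  refine norm_eq_of_inner ?_
  rw [hT _ (star_mem hxu) _ hxu, star_mul]
  have : x * u * (star u * star x) = x * star x := by
    calc x * u * (star u * star x) = x * (u * star u) * star x := by simp only [mul_assoc]
      _ = x * star x := by rw [us, mul_one]
  rw [this, hT _ hx _ (star_mem hx)]

lemma EF_norm (hT : TrP M ξ) (h : Gp F) (hF : ∀ u ∈ F, u ∈ M) {x : H →L[ℂ] H} (hx : x ∈ M) :
    ‖EF F x ξ‖ ≤ ‖x ξ‖ := by
  unfold EF
  rw [smul_apply, sum_apply, norm_smul, norm_inv,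
    Complex.norm_natCast]
  have hc : (0 : ℝ) < F.card := by
    exact_mod_cast Finset.card_pos.2 ⟨1, h.one⟩
  rw [inv_mul_le_iff₀ hc]
  refine (norm_sum_le _ _).trans ?_
  rw [Finset.sum_congr rfl fun u hu => norm_conj hT (hF u hu) hx (h.us u hu), Finset.sum_const,
    nsmul_eq_mul]

lemma EF_om (hT : TrP M ξ) (h : Gp F) (hF : ∀ u ∈ F, u ∈ M) {x : H →L[ℂ] H} (hx : x ∈ M) :
    ⟪ξ, EF F x ξ⟫_ℂ = ⟪ξ, x ξ⟫_ℂ := by
  unfold EF
  rw [smul_apply, sum_apply, inner_smul_right, inner_sum]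
  have h1 : ∀ u ∈ F, ⟪ξ, (star u * x * u) ξ⟫_ℂ = ⟪ξ, x ξ⟫_ℂ := by
    intro u hu
    rw [hT _ (mul_mem (star_mem (hF u hu)) hx) _ (hF u hu), ← mul_assoc, h.us u hu, one_mul]
  rw [Finset.sum_congr rfl h1, Finset.sum_const, nsmul_eq_mul, ← mul_assoc,
    inv_mul_cancel₀ h.card_ne, one_mul]

/-- distance of the average to the trace -/
noncomputable def aa (ξ : H) (F : Finset (H →L[ℂ] H)) (x : H →L[ℂ] H) : ℝ :=
  ‖EF F x ξ - ⟪ξ, x ξ⟫_ℂ • ξ‖

lemma aa_nonneg (x : H →L[ℂ] H) : 0 ≤ aa ξ F x := norm_nonneg _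

lemma aa_add (x y : H →L[ℂ] H) : aa ξ F (x + y) ≤ aa ξ F x + aa ξ F y := by
  unfold aa
  rw [EF_add, add_apply, add_apply, inner_add_right,
    add_smul, add_sub_add_comm]
  exact norm_add_le _ _

lemma aa_smul (c : ℂ) (x : H →L[ℂ] H) : aa ξ F (c • x) = ‖c‖ * aa ξ F x := by
  unfold aa
  rw [EF_smul, smul_apply, smul_apply, inner_smul_right,
    ← smul_smul, ← smul_sub, norm_smul]

lemma aa_le (hT : TrP M ξ) (h1 : ‖ξ‖ = 1) (h : Gp F) (hF : ∀ u ∈ F, u ∈ M) {x : H →L[ℂ] H}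
    (hx : x ∈ M) : aa ξ F x ≤ 2 * ‖x ξ‖ := by
  unfold aa
  refine (norm_sub_le _ _).trans ?_
  have h2 := EF_norm hT h hF hx
  have h3 : ‖⟪ξ, x ξ⟫_ℂ • ξ‖ ≤ ‖x ξ‖ := by
    rw [norm_smul, h1, mul_one]
    refine (norm_inner_le_norm _ _).trans ?_
    rw [h1, one_mul]
  linarith

/-- the average commutes with subtraction of the trace -/
lemma EF_sub_om (h : Gp F) (x : H →L[ℂ] H) (c : ℂ) :
    EF F (x - c • (1 : H →L[ℂ] H)) = EF F x - c • 1 := by
  rw [EF_sub, EF_smul, h.EF_one]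

lemma aa_anti {F' : Finset (H →L[ℂ] H)} (hT : TrP M ξ) (h : Gp F) (h' : Gp F') (hs : F ⊆ F')
    (hF' : ∀ u ∈ F', u ∈ M) {x : H →L[ℂ] H} (hx : x ∈ M) : aa ξ F' x ≤ aa ξ F x := by
  have hF : ∀ u ∈ F, u ∈ M := fun u hu => hF' u (hs hu)
  have h1 := EF_norm hT h' hF' (x := EF F x - ⟪ξ, x ξ⟫_ℂ • 1)
    (sub_mem (EF_mem hF hx) (vn_smul (one_mem _) _))
  rw [EF_sub_om h', EF_EF h h' hs] at h1
  simpa [aa] using h1

end norms

/-! ### the step -/

/-- the properties of the group and its relative commutant -/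
structure Inv (M : VonNeumannAlgebra H) (ξ : H) (N : VonNeumannAlgebra H)
    (F : Finset (H →L[ℂ] H)) : Prop where
  gp : Gp F
  sub : ∀ u ∈ F, u ∈ M
  mem : ∀ x : H →L[ℂ] H, x ∈ N ↔ x ∈ M ∧ ∀ u ∈ F, x * u = u * x
  fac : IsIIOneFactor N (fun x : Elt N => ⟪ξ, (x : H →L[ℂ] H) ξ⟫_ℂ)

/-- the eight elements -/
def IsW (s t w : H →L[ℂ] H) : Prop :=
  w = 1 ∨ w = -1 ∨ w = s ∨ w = -s ∨ w = t ∨ w = -t ∨ w = s * t ∨ w = -(s * t)

section W

variable {s t : H →L[ℂ] H} (ss : s * s = 1) (tt : t * t = 1) (st : s * t = -(t * s))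

include ss in
lemma IsW.smul {w : H →L[ℂ] H} (h : IsW s t w) : IsW s t (s * w) := by
  have h1 : s * (s * t) = t := by rw [← mul_assoc, ss, one_mul]
  unfold IsW at h ⊢
  rcases h with rfl | rfl | rfl | rfl | rfl | rfl | rfl | rfl <;>
    simp only [mul_neg, mul_one, ss, h1, true_or, or_true]

include tt st in
lemma IsW.tmul {w : H →L[ℂ] H} (h : IsW s t w) : IsW s t (t * w) := by
  have h0 : t * s = -(s * t) := by rw [st, neg_neg]
  have h1 : t * (s * t) = -s := by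
    rw [← mul_assoc, h0, neg_mul, mul_assoc, tt, mul_one]
  unfold IsW at h ⊢
  rcases h with rfl | rfl | rfl | rfl | rfl | rfl | rfl | rfl <;>
    simp only [mul_neg, mul_one, tt, h0, h1, neg_neg, true_or, or_true]

lemma IsW.neg {w : H →L[ℂ] H} (h : IsW s t w) : IsW s t (-w) := by
  unfold IsW at h ⊢
  rcases h with rfl | rfl | rfl | rfl | rfl | rfl | rfl | rfl <;>
    simp only [neg_neg, true_or, or_true]

include ss tt st in
lemma IsW.mul {w w' : H →L[ℂ] H} (h : IsW s t w) (h' : IsW s t w') : IsW s t (w * w') := by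
  have hs := h'.smul ss
  have ht := h'.tmul tt st
  have hst : IsW s t (s * t * w') := by
    rw [mul_assoc]
    exact ht.smul ss
  rcases h with rfl | rfl | rfl | rfl | rfl | rfl | rfl | rfl
  · rwa [one_mul]
  · rw [neg_mul, one_mul]; exact h'.neg
  · exact hs
  · rw [neg_mul]; exact hs.neg
  · exact ht
  · rw [neg_mul]; exact ht.neg
  · exact hst
  · rw [neg_mul]; exact hst.neg

include st in
lemma IsW.star (sts : star s = s) (stt : star t = t) {w : H →L[ℂ] H} (h : IsW s t w) :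
    IsW s t (star w) := by
  have h0 : t * s = -(s * t) := by rw [st, neg_neg]
  unfold IsW at h ⊢
  rcases h with rfl | rfl | rfl | rfl | rfl | rfl | rfl | rfl <;>
    simp only [star_neg, star_one, star_mul, sts, stt, h0, neg_neg, true_or, or_true]

include ss tt in
lemma IsW.su (sts : Star.star s = s) (stt : Star.star t = t) {w : H →L[ℂ] H} (h : IsW s t w) :
    Star.star w * w = 1 ∧ w * Star.star w = 1 := by
  have h1 : t * s * (s * t) = 1 := by
    calc t * s * (s * t) = t * (s * s) * t := by simp only [mul_assoc]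
      _ = 1 := by rw [ss, mul_one, tt]
  have h2 : s * t * (t * s) = 1 := by
    calc s * t * (t * s) = s * (t * t) * s := by simp only [mul_assoc]
      _ = 1 := by rw [tt, mul_one, ss]
  rcases h with rfl | rfl | rfl | rfl | rfl | rfl | rfl | rfl <;>
    simp only [star_neg, star_one, star_mul, sts, stt, neg_mul_neg, one_mul, ss, tt, h1, h2,
      and_self]

lemma IsW.comm {u w : H →L[ℂ] H} (hs : s * u = u * s) (ht : t * u = u * t) (h : IsW s t w) :
    w * u = u * w := by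
  have hst : s * t * u = u * (s * t) := by
    rw [mul_assoc, ht, ← mul_assoc, hs, mul_assoc]
  rcases h with rfl | rfl | rfl | rfl | rfl | rfl | rfl | rfl <;>
    simp only [neg_mul, mul_neg, one_mul, mul_one, hs, ht, hst]

lemma IsW.mem {M : VonNeumannAlgebra H} (hs : s ∈ M) (ht : t ∈ M) {w : H →L[ℂ] H}
    (h : IsW s t w) : w ∈ M := by
  rcases h with rfl | rfl | rfl | rfl | rfl | rfl | rfl | rfl
  · exact one_mem _
  · exact neg_mem (one_mem _)
  · exact hs
  · exact neg_mem hs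
  · exact ht
  · exact neg_mem ht
  · exact mul_mem hs ht
  · exact neg_mem (mul_mem hs ht)

end W

open Classical in
/-- the new group -/
noncomputable def newG (F : Finset (H →L[ℂ] H)) (s t : H →L[ℂ] H) : Finset (H →L[ℂ] H) :=
  (F ×ˢ ({1, -1, s, -s, t, -t, s * t, -(s * t)} : Finset (H →L[ℂ] H))).image fun p => p.1 * p.2

lemma mem_newG {F : Finset (H →L[ℂ] H)} {s t x : H →L[ℂ] H} :
    x ∈ newG F s t ↔ ∃ g ∈ F, ∃ w, IsW s t w ∧ x = g * w := by
  classical
  unfold newG IsW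
  simp only [Finset.mem_image, Finset.mem_product, Finset.mem_insert, Finset.mem_singleton,
    Prod.exists]
  constructor
  · rintro ⟨g, w, ⟨hg, hw⟩, rfl⟩
    exact ⟨g, hg, w, hw, rfl⟩
  · rintro ⟨g, hg, w, hw, rfl⟩
    exact ⟨g, w, ⟨hg, hw⟩, rfl⟩

lemma newG_gp {F : Finset (H →L[ℂ] H)} {s t : H →L[ℂ] H} (h : Gp F) (ss : s * s = 1)
    (tt : t * t = 1) (st : s * t = -(t * s)) (sts : star s = s) (stt : star t = t)
    (hs : ∀ u ∈ F, s * u = u * s) (ht : ∀ u ∈ F, t * u = u * t) : Gp (newG F s t) := by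
  refine ⟨?_, ?_, ?_, ?_, ?_⟩
  · exact mem_newG.2 ⟨1, h.one, 1, Or.inl rfl, (one_mul _).symm⟩
  · intro u hu v hv
    obtain ⟨g, hg, w, hw, rfl⟩ := mem_newG.1 hu
    obtain ⟨g', hg', w', hw', rfl⟩ := mem_newG.1 hv
    refine mem_newG.2 ⟨g * g', h.mul g hg g' hg', w * w', hw.mul ss tt st hw', ?_⟩
    calc g * w * (g' * w') = g * (w * g') * w' := by simp only [mul_assoc]
      _ = g * g' * (w * w') := by
        rw [hw.comm (hs g' hg') (ht g' hg')]; simp only [mul_assoc]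
  · intro u hu
    obtain ⟨g, hg, w, hw, rfl⟩ := mem_newG.1 hu
    have hg' := h.stm g hg
    refine mem_newG.2 ⟨star g, hg', star w, hw.star st sts stt, ?_⟩
    rw [star_mul, (hw.star st sts stt).comm (hs _ hg') (ht _ hg')]
  · intro u hu
    obtain ⟨g, hg, w, hw, rfl⟩ := mem_newG.1 hu
    rw [star_mul]
    calc star w * star g * (g * w) = star w * (star g * g) * w := by simp only [mul_assoc]
      _ = 1 := by rw [h.su g hg, mul_one, (hw.su ss tt sts stt).1]
  · intro u hu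
    obtain ⟨g, hg, w, hw, rfl⟩ := mem_newG.1 hu
    rw [star_mul]
    calc g * w * (star w * star g) = g * (w * star w) * star g := by simp only [mul_assoc]
      _ = 1 := by rw [(hw.su ss tt sts stt).2, mul_one, h.us g hg]

lemma sub_newG {F : Finset (H →L[ℂ] H)} {s t : H →L[ℂ] H} : F ⊆ newG F s t := fun u hu =>
  mem_newG.2 ⟨u, hu, 1, Or.inl rfl, (mul_one _).symm⟩

lemma W_newG {F : Finset (H →L[ℂ] H)} {s t w : H →L[ℂ] H} (h : Gp F) (hw : IsW s t w) :
    w ∈ newG F s t := mem_newG.2 ⟨1, h.one, w, hw, (one_mul _).symm⟩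

/-- the step -/
lemma step (hL : S_LF1) {M N : VonNeumannAlgebra H} {ξ : H} {F : Finset (H →L[ℂ] H)}
    (hT : TrP M ξ) (h : Inv M ξ N F) {y : H →L[ℂ] H} (hy : y ∈ M) (sy : star y = y) :
    ∃ (N' : VonNeumannAlgebra H) (F' : Finset (H →L[ℂ] H)), Inv M ξ N' F' ∧ F ⊆ F' ∧
      aa ξ F' y ^ 2 ≤ 3 / 4 * aa ξ F y ^ 2 := by
  have hz : EF F y ∈ N := (h.mem _).2 ⟨EF_mem h.sub hy, fun u hu => h.gp.EF_comm hu y⟩
  obtain ⟨s, hs, t, ht, N', sts, stt, ss, tt, st, hmem, hfac, hest⟩ :=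
    hL H N ξ h.fac (EF F y) hz (EF_star F sy)
  have hs' := (h.mem s).1 hs
  have ht' := (h.mem t).1 ht
  have hg := newG_gp h.gp ss tt st sts stt hs'.2 ht'.2
  have hsub : ∀ u ∈ newG F s t, u ∈ M := by
    intro u hu
    obtain ⟨g, hg, w, hw, rfl⟩ := mem_newG.1 hu
    exact mul_mem (h.sub g hg) (hw.mem hs'.1 ht'.1)
  refine ⟨N', newG F s t, ⟨hg, hsub, fun x => ?_, hfac⟩, sub_newG, ?_⟩
  · rw [hmem, h.mem]
    constructor
    · rintro ⟨⟨hx, hx1⟩, hx2, hx3⟩
      refine ⟨hx, fun u hu => ?_⟩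
      obtain ⟨g, hg, w, hw, rfl⟩ := mem_newG.1 hu
      rw [← mul_assoc, hx1 g hg, mul_assoc, ← hw.comm hx2.symm hx3.symm, mul_assoc]
    · rintro ⟨hx, hx1⟩
      exact ⟨⟨hx, fun u hu => hx1 u (sub_newG hu)⟩,
        hx1 s (W_newG h.gp (Or.inr (Or.inr (Or.inl rfl)))),
        hx1 t (W_newG h.gp (Or.inr (Or.inr (Or.inr (Or.inr (Or.inl rfl))))))⟩
  · -- the contraction
    have es := hg.EF_conj (W_newG h.gp (w := s) (Or.inr (Or.inr (Or.inl rfl)))) (EF F y)
    have et := hg.EF_conj (W_newG h.gp (w := t) (Or.inr (Or.inr (Or.inr (Or.inr (Or.inl rfl))))))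
      (EF F y)
    have est := hg.EF_conj (W_newG h.gp (w := s * t)
      (Or.inr (Or.inr (Or.inr (Or.inr (Or.inr (Or.inr (Or.inl rfl)))))))) (EF F y)
    rw [sts] at es
    rw [stt] at et
    set z := EF F y with hzdef
    set Ew : H →L[ℂ] H := (4 : ℂ)⁻¹ • (z + s * z * s + t * z * t + star (s * t) * z * (s * t))
      with hEw
    have hEwM : Ew ∈ M := by
      have hzM : z ∈ M := EF_mem h.sub hy
      exact vn_smul (add_mem (add_mem (add_mem hzM (mul_mem (mul_mem hs'.1 hzM) hs'.1))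
        (mul_mem (mul_mem ht'.1 hzM) ht'.1)) (mul_mem (mul_mem (star_mem (mul_mem hs'.1 ht'.1)) hzM)
          (mul_mem hs'.1 ht'.1))) _
    have e1 : EF (newG F s t) Ew = EF (newG F s t) y := by
      rw [hEw, EF_smul, EF_add, EF_add, EF_add, es, et, est, hzdef, EF_EF h.gp hg sub_newG]
      rw [← two_smul ℂ (EF (newG F s t) y), ← one_smul ℂ (EF (newG F s t) y)]
      simp only [smul_smul, ← add_smul]
      norm_num
    have e2 : ⟪ξ, z ξ⟫_ℂ = ⟪ξ, y ξ⟫_ℂ := EF_om hT h.gp h.sub hy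
    have e3 := EF_norm hT hg hsub (x := Ew - ⟪ξ, y ξ⟫_ℂ • 1)
      (sub_mem hEwM (vn_smul (one_mem _) _))
    rw [EF_sub_om hg, e1] at e3
    rw [e2] at hest
    have e4 : aa ξ (newG F s t) y = ‖(EF (newG F s t) y - ⟪ξ, y ξ⟫_ℂ • (1 : H →L[ℂ] H)) ξ‖ := by
      simp [aa]
    have e5 : aa ξ F y = ‖(z - ⟪ξ, y ξ⟫_ℂ • (1 : H →L[ℂ] H)) ξ‖ := by
      simp [aa, hzdef]
    rw [e4, e5]
    exact (pow_le_pow_left₀ (norm_nonneg _) e3 2).trans hest

/-! ### the vector state -/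

lemma trP_of_std {M : VonNeumannAlgebra H} {ξ : H} {ρ : (H →L[ℂ] H) → (H →L[ℂ] H)}
    (h : Std M ξ ρ) : TrP M ξ := fun x hx y hy => h.tr x hx y hy

lemma fac_of_std {M : VonNeumannAlgebra H} {ξ : H} {ρ : (H →L[ℂ] H) → (H →L[ℂ] H)}
    {τ : Elt M → ℂ} (hM : IsIIOneFactor M τ) (h : Std M ξ ρ) :
    IsIIOneFactor M (fun x : Elt M => ⟪ξ, (x : H →L[ℂ] H) ξ⟫_ℂ) := by
  refine ⟨hM.center, hM.infinite, ⟨?_, ?_, ?_⟩, ?_⟩
  · show ⟪ξ, (1 : H →L[ℂ] H) ξ⟫_ℂ = 1
    rw [one_apply_eq_self, inner_self_eq_norm_sq_to_K, h.unit]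
    simp
  · intro x y
    exact h.tr x x.2 y y.2
  · intro x hx
    have h1 : ⟪ξ, (star (x : H →L[ℂ] H) * (x : H →L[ℂ] H)) ξ⟫_ℂ = 0 := hx
    rw [inner_star_mul] at h1
    have h2 : ‖(x : H →L[ℂ] H) ξ‖ = 0 := by
      have := pow_eq_zero_iff (two_ne_zero) |>.1 h1
      exact_mod_cast this
    exact Subtype.ext (h.sep x x.2 (norm_eq_zero.1 h2))
  · refine ⟨fun k => if k = 0 then ξ else 0, ?_, fun x => ?_⟩
    · refine summable_of_ne_finset_zero (s := {0}) fun k hk => ?_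
      have : k ≠ 0 := by simpa using hk
      simp [this]
    · rw [tsum_eq_single 0]
      · simp
      · intro k hk
        simp [hk]

/-! ### the sequence -/

/-- self-adjoint parts -/
noncomputable def part (x : H →L[ℂ] H) (b : ℕ) : H →L[ℂ] H :=
  if b = 0 then (2 : ℂ)⁻¹ • (x + star x) else (-(Complex.I / 2)) • (x - star x)

lemma part_mem {M : VonNeumannAlgebra H} {x : H →L[ℂ] H} (hx : x ∈ M) (b : ℕ) : part x b ∈ M := by
  unfold part
  split_ifs
  · exact vn_smul (add_mem hx (star_mem hx)) _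
  · exact vn_smul (sub_mem hx (star_mem hx)) _

lemma part_star (x : H →L[ℂ] H) (b : ℕ) : star (part x b) = part x b := by
  unfold part
  split_ifs
  · rw [star_smul, star_add, star_star, add_comm]
    congr 1
    simp
  · rw [star_smul, star_sub, star_star]
    have : star (-(Complex.I / 2)) = Complex.I / 2 := by
      simp
      ring
    rw [this, neg_smul, ← smul_neg, neg_sub]

lemma part_add (x : H →L[ℂ] H) : part x 0 + Complex.I • part x 1 = x := by
  unfold part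
  rw [if_pos rfl, if_neg one_ne_zero, smul_smul]
  have : Complex.I * -(Complex.I / 2) = (2 : ℂ)⁻¹ := by
    have := Complex.I_mul_I
    field_simp
    linear_combination -this
  rw [this, ← smul_add, add_add_sub_cancel, ← two_smul ℂ x, smul_smul]
  norm_num

theorem lf (hL : S_LF1) : S_LF := by
  intro H _ _ _ M τ ξ ρ hM hS hx
  obtain ⟨x, hxM, hxd⟩ := hx
  have hT := trP_of_std hS
  have hfac := fac_of_std hM hS
  -- the states
  let St := {p : VonNeumannAlgebra H × Finset (H →L[ℂ] H) // Inv M ξ p.1 p.2}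
  have hstep : ∀ (p : St) (k : ℕ), ∃ p' : St, p.1.2 ⊆ p'.1.2 ∧
      aa ξ p'.1.2 (part (x (Nat.unpair (Nat.unpair k).1).1) (Nat.unpair (Nat.unpair k).1).2) ^ 2 ≤
      3 / 4 * aa ξ p.1.2
        (part (x (Nat.unpair (Nat.unpair k).1).1) (Nat.unpair (Nat.unpair k).1).2) ^ 2 := by
    intro p k
    obtain ⟨N', F', h1, h2, h3⟩ := step hL hT p.2 (part_mem (hxM (Nat.unpair (Nat.unpair k).1).1)
      (Nat.unpair (Nat.unpair k).1).2) (part_star _ _)
    exact ⟨⟨(N', F'), h1⟩, h2, h3⟩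
  choose nx hnx1 hnx2 using hstep
  have h0 : Inv M ξ M {1} := by
    refine ⟨⟨by simp, ?_, ?_, ?_, ?_⟩, ?_, ?_, hfac⟩
    · intro u hu v hv
      rw [Finset.mem_singleton] at hu hv ⊢
      rw [hu, hv, one_mul]
    · intro u hu
      rw [Finset.mem_singleton] at hu ⊢
      rw [hu, star_one]
    · intro u hu
      rw [Finset.mem_singleton] at hu
      rw [hu, star_one, one_mul]
    · intro u hu
      rw [Finset.mem_singleton] at hu
      rw [hu, star_one, one_mul]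
    · intro u hu
      rw [Finset.mem_singleton] at hu
      rw [hu]
      exact one_mem _
    · intro y
      constructor
      · intro hy
        refine ⟨hy, fun u hu => ?_⟩
        rw [Finset.mem_singleton] at hu
        rw [hu, one_mul, mul_one]
      · exact fun hy => hy.1
  let Sq : ℕ → St := fun n => Nat.rec (⟨(M, {1}), h0⟩ : St) (fun k p => nx p k) n
  have hSq : ∀ k, Sq (k + 1) = nx (Sq k) k := fun k => rfl
  have hgp : ∀ k, Gp (Sq k).1.2 := fun k => (Sq k).2.gp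
  have hsub : ∀ k, ∀ u ∈ (Sq k).1.2, u ∈ M := fun k => (Sq k).2.sub
  have hmono1 : ∀ k, (Sq k).1.2 ⊆ (Sq (k + 1)).1.2 := by
    intro k
    rw [hSq]
    exact hnx1 _ _
  have hanti : ∀ y ∈ M, Antitone (fun k => aa ξ (Sq k).1.2 y) := by
    intro y hy
    refine antitone_nat_of_succ_le fun k => ?_
    exact aa_anti hT (hgp k) (hgp (k + 1)) (hmono1 k) (hsub (k + 1)) hy
  -- the self-adjoint parts
  have hlim1 : ∀ j b : ℕ, Filter.Tendsto (fun k => aa ξ (Sq k).1.2 (part (x j) b)) Filter.atTop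
      (nhds 0) := by
    intro j b
    have hA := hanti (part (x j) b) (part_mem (hxM j) b)
    have hbdd : BddBelow (Set.range fun k => aa ξ (Sq k).1.2 (part (x j) b)) :=
      ⟨0, by rintro _ ⟨k, rfl⟩; exact aa_nonneg _⟩
    have hT' := tendsto_atTop_ciInf hA hbdd
    set L := ⨅ k, aa ξ (Sq k).1.2 (part (x j) b) with hLdef
    have hL0 : 0 ≤ L := le_ciInf fun k => aa_nonneg _
    have hLk : ∀ k, L ≤ aa ξ (Sq k).1.2 (part (x j) b) := fun k => ciInf_le hbdd k
    rcases hL0.eq_or_lt with h | h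
    · rwa [← h] at hT'
    · exfalso
      have h2 : Filter.Tendsto (fun k => 3 / 4 * aa ξ (Sq k).1.2 (part (x j) b) ^ 2) Filter.atTop
          (nhds (3 / 4 * L ^ 2)) := (hT'.pow 2).const_mul _
      have h3 : 3 / 4 * L ^ 2 < L ^ 2 := by nlinarith [pow_pos h 2]
      obtain ⟨K, hK⟩ := Filter.eventually_atTop.1 (h2.eventually_lt_const h3)
      have h4 := hK (Nat.pair (Nat.pair j b) K) (Nat.right_le_pair _ _)
      have h5 := hnx2 (Sq (Nat.pair (Nat.pair j b) K)) (Nat.pair (Nat.pair j b) K)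
      rw [← hSq, Nat.unpair_pair] at h5
      simp only [Nat.unpair_pair] at h5
      have h6 := hLk (Nat.pair (Nat.pair j b) K + 1)
      have h7 : L ^ 2 ≤ aa ξ (Sq (Nat.pair (Nat.pair j b) K + 1)).1.2 (part (x j) b) ^ 2 :=
        pow_le_pow_left₀ hL0 h6 2
      linarith
  have hlim2 : ∀ j : ℕ, Filter.Tendsto (fun k => aa ξ (Sq k).1.2 (x j)) Filter.atTop (nhds 0) := by
    intro j
    have h1 := (hlim1 j 0).add (hlim1 j 1)
    rw [add_zero] at h1
    refine squeeze_zero (fun k => aa_nonneg _) (fun k => ?_) h1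
    calc aa ξ (Sq k).1.2 (x j) = aa ξ (Sq k).1.2 (part (x j) 0 + Complex.I • part (x j) 1) := by
          rw [part_add]
      _ ≤ _ := (aa_add _ _).trans (by rw [aa_smul, Complex.norm_I, one_mul])
  refine ⟨fun k => (Sq k).1.2, monotone_nat_of_le_succ hmono1, fun n => (hgp n).one,
    fun n => (hgp n).mul, fun n => (hgp n).stm, fun n => (hgp n).su, fun n => (hgp n).us,
    fun n => hsub n, fun y hy ε hε => ?_⟩
  obtain ⟨j, hj⟩ := hxd y hy (ε / 4) (by positivity)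
  obtain ⟨K, hK⟩ := Filter.eventually_atTop.1 ((hlim2 j).eventually_lt_const
    (show (0 : ℝ) < ε / 4 by positivity))
  refine ⟨K, fun n hn => ?_⟩
  have h1 : aa ξ (Sq n).1.2 y ≤ ε := by
    calc aa ξ (Sq n).1.2 y = aa ξ (Sq n).1.2 ((y - x j) + x j) := by rw [sub_add_cancel]
      _ ≤ aa ξ (Sq n).1.2 (y - x j) + aa ξ (Sq n).1.2 (x j) := aa_add _ _
      _ ≤ 2 * ‖(y - x j) ξ‖ + ε / 4 :=
        add_le_add (aa_le hT hS.unit (hgp n) (hsub n) (sub_mem hy (hxM j))) (hK n hn).le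
      _ ≤ ε := by linarith
  exact h1

end Pool.Agent.W591.KKS
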